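import Pool.Agent.Work.StdConj01.Main

/-!
The main theorem of StdConj01 relative to a class `P` of varieties, stable under products and
hypersurface sections and containing the projective line: the separation of the middle degree of
one very general section of each product of two members of `P` of dimension `n` gives the
Lefschetz standard conjecture for the members of `P` of dimension at most `n`.
-/

open CategoryTheory MonoidalCategory CartesianMonoidalCategory

universe u v w x b

namespace Pool.Std

open Pool.KC Pool.SL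

variable {V : Type u} [Category.{v} V] [CartesianMonoidalCategory V] {K : Type x} [Field K]
variable {T : WeilTheory.{u, v, w, x} V K} {R : Cyc T} {G : Pl.{u, v, w, x, b} R}

/-- products with projective lines stay in the class -/
theorem Pl.lines_mem {P : V → Prop} (hprod : ∀ X Y : V, P X → P Y → P (X ⊗ Y)) (hl : P G.P1)
    {X : V} (hX : P X) (j : ℕ) : P (G.lines X j) := by
  induction j with
  | zero => exact hX
  | succ j ih => exact hprod _ _ hl ih

variable [CharZero K]

/-- a class of varieties stable under products and hypersurface sections -/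
structure RelClass (G : Pl.{u, v, w, x, b} R) (P : V → Prop) : Prop where
  prod : ∀ X Y : V, P X → P Y → P (X ⊗ Y)
  line : P G.P1
  hyp : ∀ (X : V) (M : G.Bund X), P X → 2 ≤ T.dim X → ∃ S : Hyp G M, P S.Y

/-- regularity on the products of two members of `P` of the same dimension at most `n` -/
theorem reg2_square_rel {P : V → Prop} (hP : RelClass G P) {n : ℕ}
    (h : ∀ (A B : V) (N : G.Bund A) (M : G.Bund B), P A → P B → T.dim A = n →
      T.dim B = n → Reg2 R (G.c (G.box N M))) :
    ∀ (t k : ℕ), 1 ≤ k → k + t = n → ∀ (A B : V) (N : G.Bund A) (M : G.Bund B), P A → P B →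
      T.dim A = k → T.dim B = k → Reg2 R (G.c (G.box N M)) := by
  intro t
  induction t with
  | zero =>
    intro k _ hk A B N M hPA hPB hA hB
    exact h A B N M hPA hPB (by omega) (by omega)
  | succ t ih =>
    intro k hk hkt A B N M hPA hPB hA hB
    apply Reg2.of_square N M (by omega)
    apply ih (k + 1) (by omega) (by omega) _ _ _ _ (hP.prod _ _ hP.line hPA)
      (hP.prod _ _ hP.line hPB)
    · rw [T.dim_prod, G.P_dim]
      omega
    · rw [T.dim_prod, G.P_dim]
      omega

/-- regularity on the products of two members of `P` of dimension `n` separates the middle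
degree of the members of `P` of dimension at most `n` -/
theorem splits_of_reg2_rel {P : V → Prop} (hP : RelClass G P) (hR : R.Div) (hc : Conn T) {n : ℕ}
    (hreg : ∀ (A B : V) (N : G.Bund A) (M : G.Bund B), P A → P B → T.dim A = n → T.dim B = n →
      Reg2 R (G.c (G.box N M))) {X : V} (hPX : P X) (M : G.Bund X) (hX : 1 ≤ T.dim X)
    (hXn : T.dim X ≤ n) : R.Splits X (T.dim X - 1) (T.dim X) := by
  apply Cyc.Splits.of_lines (G := G) hR hX (n - T.dim X)
  have hd := Pl.dim_lines (G := G) X (n - T.dim X)
  have hPX' := Pl.lines_mem (G := G) hP.prod hP.line hPX (n - T.dim X)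
  set X' := G.lines X (n - T.dim X)
  have hd' : T.dim X' = n := by omega
  let M' : G.Bund X' := G.linesB M (n - T.dim X)
  rcases Nat.lt_or_ge n 2 with hn | hn
  · have h1 := hreg G.P1 X' G.O1 M' hP.line hPX' (by rw [G.P_dim]; omega) hd'
    exact splits_of_reg2_line M' (by omega) h1
  · have hdT := Pl.dim_lines (G := G) G.P1 (n - 2)
    have hPT := Pl.lines_mem (G := G) hP.prod hP.line hP.line (n - 2)
    rw [G.P_dim] at hdT
    set T' := G.lines G.P1 (n - 2)
    let N' : G.Bund T' := G.linesB G.O1 (n - 2)
    have h1 := hreg (G.P1 ⊗ T') X' (G.box G.O1 N') M' (hP.prod _ _ hP.line hPT) hPX'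
      (by rw [T.dim_prod, G.P_dim]; omega) hd'
    have h2 := splits_of_reg2_line (G.box N' M') (by rw [T.dim_prod]; omega) (Reg2.assoc N' M' h1)
    have hdZ : T.dim (T' ⊗ X') = 2 * n - 1 := by rw [T.dim_prod]; omega
    rw [hdZ] at h2
    refine Cyc.Splits.mid hR N' (tr_pow_ne N' (hc T').1 (hc T').2) (by omega)
      (k := 2 * n - 2) (by omega) (by omega) ?_
    rw [show 2 * n - 2 + 1 = 2 * n - 1 by omega]
    exact h2

/-- **Main theorem, relative to `P`.** -/
theorem lefB_of_splits_rel {P : V → Prop} (hP : RelClass G P) (hR : R.Div) (hc : Conn T) {n : ℕ}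
    (hsep : ∀ (A B : V) (N : G.Bund A) (M : G.Bund B), P A → P B → T.dim A = n → T.dim B = n →
      ∃ S : Sect R (G.c (G.box N M)), R.Splits S.Y (T.dim S.Y - 1) (T.dim S.Y)) :
    ∀ (k : ℕ), k ≤ n → ∀ (X : V) (M : G.Bund X), P X → T.dim X = k → G.LefB M := by
  -- regularity
  have hreg0 : 1 ≤ n → ∀ (A B : V) (N : G.Bund A) (M : G.Bund B), P A → P B → T.dim A = n →
      T.dim B = n → Reg2 R (G.c (G.box N M)) := by
    intro hn A B N M hPA hPB hA hB
    obtain ⟨S, hS⟩ := hsep A B N M hPA hPB hA hB
    have hd := S.dim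
    rw [T.dim_prod] at hd
    exact S.reg2 (G.c_mem _) (by omega) hS
  have hreg1 : ∀ k, 1 ≤ k → k ≤ n → ∀ (A B : V) (N : G.Bund A) (M : G.Bund B), P A → P B →
      T.dim A = k → T.dim B = k → Reg2 R (G.c (G.box N M)) := fun k hk hkn =>
    reg2_square_rel hP (hreg0 (by omega)) (n - k) k hk (by omega)
  have hP2 : T.dim (G.P1 ⊗ G.P1) = 2 := by rw [T.dim_prod, G.P_dim]
  have hPP : P (G.P1 ⊗ G.P1) := hP.prod _ _ hP.line hP.line
  intro k
  induction k using Nat.strong_induction_on with
  | _ k ih =>
    intro hk X M hPX hX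
    rcases Nat.eq_zero_or_pos k with h1 | h1
    · exact lefB_point M (by omega)
    · refine lefB_of_high (by omega) ?_
        (splits_of_reg2_rel hP hR hc (hreg0 (by omega)) hPX M (by omega) (by omega))
        (hreg1 k h1 hk _ _ M M hPX hPX hX hX)
      rcases Nat.lt_or_ge k 3 with h3 | h3
      · rcases Nat.lt_or_ge k 2 with h2 | h2
        · exact highLam_curve (by omega)
        · exact highLam_surface hR (by omega) (hc X).2
      · obtain ⟨S₀, hS₀⟩ := hP.hyp X M hPX (by omega)
        have hd0 := S₀.dim
        obtain ⟨S₁, hS₁⟩ := hP.hyp S₀.Y S₀.N hS₀ (by omega)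
        have hd1 := S₁.dim
        refine highLam_of_sections S₀ S₁ (by omega) (ih (k - 1) (by omega) (by omega) _ S₀.N
          hS₀ (by omega)) ?_ ?_
        · apply Reg2.of_left S₁.N M (by omega)
          exact hreg1 k h1 hk _ _ _ M (hP.prod _ _ hPP hS₁) hPX (by rw [T.dim_prod, hP2]; omega) hX
        · apply Reg2.of_right M S₁.N (by omega)
          exact hreg1 k h1 hk _ _ M _ hPX (hP.prod _ _ hPP hS₁) hX (by rw [T.dim_prod, hP2]; omega)

end Pool.Std
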